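import Pool.Agent.H41.CP.Stmts

/-!
# Project CP, S_G4: a vertex with at most two neighbours outside a set of at most five
neighbours of degree four
-/

set_option autoImplicit false

namespace Pool.Agent.H549.CP.G4

open Pool.Agent.H41.CP

theorem cover_two {V : Type} [DecidableEq V] (v : V) (N : Finset V) (h : N.card ≤ 2) :
    ∃ a b : V, ∀ x ∈ N, x = a ∨ x = b := by
  rcases Nat.lt_or_ge N.card 1 with h0 | h1
  · have h2 : N = ∅ := Finset.card_eq_zero.1 (by omega)
    refine ⟨v, v, fun x hx => ?_⟩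
    rw [h2] at hx
    exact absurd hx (Finset.notMem_empty x)
  · rcases Nat.lt_or_ge N.card 2 with h2 | h2
    · obtain ⟨a, ha⟩ := Finset.card_eq_one.1 (show N.card = 1 by omega)
      refine ⟨a, a, fun x hx => ?_⟩
      rw [ha, Finset.mem_singleton] at hx
      exact Or.inl hx
    · obtain ⟨a, b, _, hab⟩ := Finset.card_eq_two.1 (show N.card = 2 by omega)
      refine ⟨a, b, fun x hx => ?_⟩
      rw [hab, Finset.mem_insert, Finset.mem_singleton] at hx
      exact hx

theorem cover_three {V : Type} (N : Finset V) (h : N.card = 3) :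
    ∃ x : Fin 3 → V, ∀ y ∈ N, ∃ i, y = x i := by
  refine ⟨fun i => ((Finset.equivFinOfCardEq h).symm i : V), fun y hy => ?_⟩
  refine ⟨Finset.equivFinOfCardEq h ⟨y, hy⟩, ?_⟩
  show y = (((Finset.equivFinOfCardEq h).symm (Finset.equivFinOfCardEq h ⟨y, hy⟩) : N) : V)
  rw [Equiv.symm_apply_apply]

theorem g4 (ha : S_AGREE) (hf : S_FAM) : S_G4 := by
  intro V _ G _ σ hσ W hno v hv K hK hK5 hdv φ hφ
  have hKnb : K ⊆ nb G W v := by
    intro w hw
    obtain ⟨h1, h2, _⟩ := hK w hw
    unfold nb
    rw [Finset.mem_filter]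
    exact ⟨h1, h2⟩
  have hvK : v ∉ K := fun h => G.irrefl (hK v h).2.1
  -- the at most two neighbours outside `K`
  have hN : (nb G W v \ K).card ≤ 2 := by
    rw [Finset.card_sdiff_of_subset hKnb]
    have : (nb G W v).card ≤ K.card + 2 := hdv
    omega
  obtain ⟨p, q, hpq⟩ := cover_two v _ hN
  obtain ⟨t, ht1, ht2⟩ := hf (σ p v * φ p) (σ q v * φ q)
  -- the other three neighbours of a member of `K`
  have hx : ∀ w : V, ∃ x : Fin 3 → V, w ∈ K → ∀ y ∈ W, G.Adj w y → y ≠ v → ∃ i, y = x i := by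
    intro w
    by_cases hw : w ∈ K
    · obtain ⟨h1, h2, h3⟩ := hK w hw
      have hvn : v ∈ nb G W w := by
        unfold nb
        rw [Finset.mem_filter]
        exact ⟨hv, h2.symm⟩
      have hc : ((nb G W w).erase v).card = 3 := by
        rw [Finset.card_erase_of_mem hvn]
        have : (nb G W w).card = 4 := h3
        omega
      obtain ⟨x, hx⟩ := cover_three _ hc
      refine ⟨x, fun _ y hy hwy hyv => hx y ?_⟩
      rw [Finset.mem_erase]
      refine ⟨hyv, ?_⟩
      unfold nb
      rw [Finset.mem_filter]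
      exact ⟨hy, hwy⟩
    · exact ⟨fun _ => v, fun h => absurd h hw⟩
  choose x hx using hx
  let F : V → Fin 3 → P6 := fun w i => σ (x w i) w * φ (x w i)
  have hone : ∀ w, ∀ i j : Fin 6, i ≠ j → Bad (F w) (σ v w * t i) →
      ¬ Bad (F w) (σ v w * t j) := by
    intro w i j hij hi hj
    obtain ⟨a, b, hab, h1, h2⟩ := ha (F w) _ _ hi hj
    refine ht2 i j hij a b hab ⟨?_, ?_⟩
    · exact (σ v w).injective h1
    · exact (σ v w).injective h2
  obtain ⟨i, hi⟩ : ∃ i : Fin 6, ∀ w ∈ K, ¬ Bad (F w) (σ v w * t i) := by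
    by_contra hcon
    have hcon' : ∀ i : Fin 6, ∃ w ∈ K, Bad (F w) (σ v w * t i) := by
      intro i
      by_contra h
      apply hcon
      refine ⟨i, fun w hw hb => h ⟨w, hw, hb⟩⟩
    choose g hg1 hg2 using hcon'
    have hinj : Function.Injective g := by
      intro i j hij
      by_contra hne
      have h1 := hg2 i
      rw [hij] at h1
      exact hone (g j) i j hne h1 (hg2 j)
    have hcard : (Finset.univ : Finset (Fin 6)).card ≤ K.card :=
      Finset.card_le_card_of_injOn g (fun i _ => hg1 i) (fun a _ b _ hab => hinj hab)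
    rw [Finset.card_univ, Fintype.card_fin] at hcard
    omega
  have he : ∀ w : V, ∃ s : P6, w ∈ K → ∀ k, s k ≠ (σ v w * t i) k ∧ ∀ j, s k ≠ F w j k := by
    intro w
    by_cases hw : w ∈ K
    · have h1 := hi w hw
      unfold Bad at h1
      rw [not_not] at h1
      obtain ⟨s, hs⟩ := h1
      exact ⟨s, fun _ => hs⟩
    · exact ⟨1, fun h => absurd h hw⟩
  choose e he using he
  let ψ : V → P6 := fun y => if y = v then t i else if y ∈ K then e y else φ y
  have ψv : ψ v = t i := if_pos rfl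
  have ψK : ∀ y ∈ K, ψ y = e y := by
    intro y hy
    have h1 : y ≠ v := fun h => hvK (h ▸ hy)
    show (if y = v then t i else if y ∈ K then e y else φ y) = e y
    rw [if_neg h1, if_pos hy]
  have ψo : ∀ y, y ≠ v → y ∉ K → ψ y = φ y := by
    intro y h1 h2
    show (if y = v then t i else if y ∈ K then e y else φ y) = φ y
    rw [if_neg h1, if_neg h2]
  have symm : ∀ a b, G.Adj a b → (∀ k, ψ b k ≠ σ a b (ψ a k)) →
      ∀ k, ψ a k ≠ σ b a (ψ b k) := by
    intro a b hab h k hk
    apply h k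
    rw [hσ a b hab] at hk
    rw [hk]
    exact ((σ a b).apply_symm_apply (ψ b k)).symm
  have c1 : ∀ b ∈ K, ∀ k, ψ b k ≠ σ v b (ψ v k) := by
    intro b hb k
    rw [ψv, ψK b hb]
    exact (he b hb k).1
  have c2 : ∀ a ∈ W, a ≠ v → a ∉ K → G.Adj a v → ∀ k, ψ v k ≠ σ a v (ψ a k) := by
    intro a haW hav haK hadj k
    rw [ψv, ψo a hav haK]
    have h1 : a ∈ nb G W v \ K := by
      rw [Finset.mem_sdiff]
      refine ⟨?_, haK⟩
      unfold nb
      rw [Finset.mem_filter]
      exact ⟨haW, hadj.symm⟩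
    rcases hpq a h1 with h | h
    · rw [h]
      exact (ht1 i k).1
    · rw [h]
      exact (ht1 i k).2
  have c3 : ∀ a ∈ W, ∀ b ∈ K, a ≠ v → a ∉ K → G.Adj a b → ∀ k, ψ b k ≠ σ a b (ψ a k) := by
    intro a haW b hb hav haK hadj k
    rw [ψo a hav haK, ψK b hb]
    obtain ⟨j, hj⟩ := hx b hb a haW hadj.symm hav
    have h1 := (he b hb k).2 j
    have h2 : F b j = σ a b * φ a := by
      show σ (x b j) b * φ (x b j) = σ a b * φ a
      rw [← hj]
    rw [h2] at h1
    exact h1
  refine ⟨ψ, ?_⟩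
  intro a haW b hbW hadj
  by_cases hav : a = v
  · subst hav
    by_cases hbK : b ∈ K
    · exact c1 b hbK
    · have hba : b ≠ a := fun h => G.irrefl (h ▸ hadj)
      exact symm b a hadj.symm (c2 b hbW hba hbK hadj.symm)
  · by_cases hbv : b = v
    · subst hbv
      by_cases haK : a ∈ K
      · exact symm b a hadj.symm (c1 a haK)
      · exact c2 a haW hav haK hadj
    · by_cases haK : a ∈ K
      · by_cases hbK : b ∈ K
        · exact absurd (hK b hbK).2.2 (hno a haW b hbW hadj (hK a haK).2.2)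
        · exact symm b a hadj.symm (c3 b hbW a haK hbv hbK hadj.symm)
      · by_cases hbK : b ∈ K
        · exact c3 a haW b hbK hav haK hadj
        · rw [ψo a hav haK, ψo b hbv hbK]
          apply hφ a _ b _ hadj
          · rw [Finset.mem_erase, Finset.mem_sdiff]
            exact ⟨hav, haW, haK⟩
          · rw [Finset.mem_erase, Finset.mem_sdiff]
            exact ⟨hbv, hbW, hbK⟩

end Pool.Agent.H549.CP.G4
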